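import Pool.Agent.helper1.UN.SpecU

/-!
# Row VNF of project UN, block H, part U: unfolding
-/

set_option autoImplicit false

open NumberField Complex MeasureTheory NumberField.Units NumberField.Units.dirichletUnitTheorem

open scoped Classical

namespace Pool.Agent.UN

theorem VNF_summ {α β : Type*} [Finite β] (f : α → ℝ) (hf0 : ∀ a, 0 ≤ f a) (hf : Summable f) :
    Summable (fun p : α × β => f p.1) := by
  let : Fintype β := Fintype.ofFinite β
  refine (summable_prod_of_nonneg (fun p => hf0 p.1)).2 ⟨fun a => (hasSum_fintype _).summable, ?_⟩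
  have h1 : ∀ a, ∑' b : β, f a = (Fintype.card β : ℝ) * f a := fun a => by
    rw [tsum_fintype, Finset.sum_const, Finset.card_univ, nsmul_eq_mul]
  simp only [h1]
  exact hf.mul_left _

theorem VNF_fin {α β E : Type*} [Finite β] [NormedAddCommGroup E] [CompleteSpace E] (g : α → E) (f : α → ℝ)
    (hf0 : ∀ a, ‖g a‖ ≤ f a) (hf : Summable f) :
    Summable (fun p : α × β => g p.1) ∧ ∑' p : α × β, g p.1 = Nat.card β • ∑' a, g a := by
  have hs : Summable (fun p : α × β => g p.1) :=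
    Summable.of_norm_bounded (VNF_summ f (fun a => (norm_nonneg _).trans (hf0 a)) hf) fun p => hf0 p.1
  refine ⟨hs, ?_⟩
  let : Fintype β := Fintype.ofFinite β
  rw [hs.tsum_prod]
  have h1 : ∀ a, ∑' b : β, g a = Nat.card β • g a := fun a => by
    rw [tsum_fintype, Finset.sum_const, Finset.card_univ, Nat.card_eq_fintype_card]
  simp only [h1]
  have hg : Summable g := Summable.of_norm_bounded hf hf0
  exact hg.tsum_const_smul _

theorem VNF_prodA {α β : Type*} (A : α → β → ℝ) (hA0 : ∀ a q, 0 ≤ A a q) (J : α → ℝ) (n : ℕ)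
    (h1 : ∀ a, Summable (fun q => A a q)) (h2 : ∀ a, ∑' q, A a q = n • J a) (hJ : Summable J) :
    Summable (fun r : α × β => A r.1 r.2) := by
  refine (summable_prod_of_nonneg (fun r => hA0 r.1 r.2)).2 ⟨fun a => h1 a, ?_⟩
  have h3 : (fun a => ∑' q, A a q) = fun a => (n : ℝ) * J a := funext fun a => by rw [h2, nsmul_eq_mul]
  rw [h3]
  exact hJ.mul_left _

theorem VNF_prodB {α β : Type*} (B : α → β → ℂ) (J : α → ℂ) (n : ℕ)
    (h1 : Summable (fun r : α × β => B r.1 r.2)) (h2 : ∀ a, ∑' q, B a q = n • J a) (hJ : Summable J) :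
    ∑' r : α × β, B r.1 r.2 = (n : ℂ) * ∑' a, J a := by
  rw [h1.tsum_prod]
  have h3 : (fun a => ∑' q, B a q) = fun a => (n : ℂ) * J a := funext fun a => by rw [h2, nsmul_eq_mul]
  rw [h3, tsum_mul_left]

theorem VNF (hVUT : VUT_stmt) (hVPR : VPR_stmt) (hVFS : VFS_stmt) : VNF_stmt := by
  intro K _ _ b F g J J₁ hFD hu h0 hInt hJ hJ₁ hS
  obtain ⟨EU, hEU⟩ := hVUT K
  obtain ⟨E, γ, hγ, hE⟩ := hVPR K b
  have hion : ∀ x, IntegrableOn (g x) ((Set.univ : Set ℝ) ×ˢ F) := by
    intro x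
    by_cases hx : x = 0
    · rw [hx]
      have h1 : g 0 = fun _ => 0 := funext h0
      rw [h1]
      exact integrableOn_zero
    · exact (hInt x hx).integrableOn
  refine ⟨hion, ?_⟩
  set e : (Pr b) × ((unitLattice K) × (torsion K)) ≃ {x : 𝓞 K // x ∈ b ∧ x ≠ 0} :=
    ((Equiv.refl (Pr b)).prodCongr EU.symm).trans E with he
  have hex : ∀ r : (Pr b) × ((unitLattice K) × (torsion K)),
      ((e r : {x : 𝓞 K // x ∈ b ∧ x ≠ 0}) : 𝓞 K) = ((EU.symm r.2 : (𝓞 K)ˣ) : 𝓞 K) * γ (r.1 : Ideal (𝓞 K)) := fun r => hE _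
  have hlu : ∀ q : (unitLattice K) × (torsion K), lu (EU.symm q) = ((q.1 : unitLattice K) : logSpace K) := fun q => by
    rw [← hEU, Equiv.apply_symm_apply]
  have hgx : ∀ (r : (Pr b) × ((unitLattice K) × (torsion K))) (p : ℝ × logSpace K),
      g ((e r : {x : 𝓞 K // x ∈ b ∧ x ≠ 0}) : 𝓞 K) p = g (γ (r.1 : Ideal (𝓞 K))) (p.1, p.2 + ((r.2.1 : unitLattice K) : logSpace K)) := by
    intro r p
    rw [hex, hu, hlu]
  set A : (Pr b) → (unitLattice K) → ℝ := fun I v =>
    ∫ p in (Set.univ : Set ℝ) ×ˢ F, ‖g (γ (I : Ideal (𝓞 K))) (p.1, p.2 + (v : logSpace K))‖ with hA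
  set B : (Pr b) → (unitLattice K) → ℂ := fun I v =>
    ∫ p in (Set.univ : Set ℝ) ×ˢ F, g (γ (I : Ideal (𝓞 K))) (p.1, p.2 + (v : logSpace K)) with hB
  have hAB : ∀ I v, ‖B I v‖ ≤ A I v := fun I v => norm_integral_le_integral_norm _
  have hA0 : ∀ I v, 0 ≤ A I v := fun I v => (norm_nonneg _).trans (hAB I v)
  have hAs : ∀ I : Pr b, HasSum (A I) (J₁ (I : Ideal (𝓞 K))) := by
    intro I
    obtain ⟨h1, h2⟩ := hγ (I : Ideal (𝓞 K)) I.2
    have h3 := (hVFS K F (g (γ (I : Ideal (𝓞 K)))) hFD (hInt _ h1)).2.1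
    rw [hJ₁ _ h1, h2] at h3
    exact h3
  have hBs : ∀ I : Pr b, HasSum (B I) (J (I : Ideal (𝓞 K))) := by
    intro I
    obtain ⟨h1, h2⟩ := hγ (I : Ideal (𝓞 K)) I.2
    have h3 := (hVFS K F (g (γ (I : Ideal (𝓞 K)))) hFD (hInt _ h1)).2.2
    rw [hJ _ h1, h2] at h3
    exact h3
  have hAf : ∀ I : Pr b, Summable (fun q : (unitLattice K) × (torsion K) => A I q.1) ∧
      ∑' q : (unitLattice K) × (torsion K), A I q.1 = Nat.card (torsion K) • J₁ (I : Ideal (𝓞 K)) := by
    intro I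
    have h4 := VNF_fin (β := torsion K) (A I) (A I) (fun v => by rw [Real.norm_of_nonneg (hA0 I v)]) (hAs I).summable
    rw [(hAs I).tsum_eq] at h4
    exact h4
  have hBf : ∀ I : Pr b, ∑' q : (unitLattice K) × (torsion K), B I q.1 = Nat.card (torsion K) • J (I : Ideal (𝓞 K)) := by
    intro I
    have h4 := (VNF_fin (β := torsion K) (B I) (A I) (hAB I) (hAs I).summable).2
    rw [(hBs I).tsum_eq] at h4
    exact h4
  have hAt : Summable (fun r : (Pr b) × ((unitLattice K) × (torsion K)) => A r.1 r.2.1) :=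
    VNF_prodA (fun I (q : (unitLattice K) × (torsion K)) => A I q.1) (fun I q => hA0 I q.1)
      (fun I : Pr b => J₁ (I : Ideal (𝓞 K))) (Nat.card (torsion K)) (fun I => (hAf I).1) (fun I => (hAf I).2) hS
  have hBt : Summable (fun r : (Pr b) × ((unitLattice K) × (torsion K)) => B r.1 r.2.1) :=
    Summable.of_norm_bounded hAt fun r => hAB r.1 r.2.1
  have hBt' : ∑' r : (Pr b) × ((unitLattice K) × (torsion K)), B r.1 r.2.1 =
      (torsionOrder K : ℂ) * ∑' I : Pr b, J (I : Ideal (𝓞 K)) := by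
    have h5 : Summable (fun I : Pr b => J (I : Ideal (𝓞 K))) := by
      refine Summable.of_norm_bounded hS fun I => ?_
      rw [← (hBs I).tsum_eq, ← (hAs I).tsum_eq]
      exact tsum_of_norm_bounded (hAs I).summable.hasSum (hAB I)
    exact VNF_prodB (fun I (q : (unitLattice K) × (torsion K)) => B I q.1) (fun I : Pr b => J (I : Ideal (𝓞 K)))
      (Nat.card (torsion K)) hBt hBf h5
  -- from the pairs to the elements of `b`
  let i : {x : 𝓞 K // x ∈ b ∧ x ≠ 0} → b := fun x => ⟨x.1, x.2.1⟩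
  have hi : Function.Injective i := fun x y hxy => Subtype.ext (congrArg (fun z : b => (z : 𝓞 K)) hxy)
  have hoff : ∀ x : b, x ∉ Set.range i → (x : 𝓞 K) = 0 := by
    intro x hx
    by_contra hne
    exact hx ⟨⟨x.1, x.2, hne⟩, rfl⟩
  refine ⟨?_, ?_⟩
  · have h6 : ∀ x : b, x ∉ Set.range i → ∫ p in (Set.univ : Set ℝ) ×ˢ F, ‖g (x : 𝓞 K) p‖ = 0 := by
      intro x hx
      rw [hoff x hx]
      simp [h0]
    refine (hi.summable_iff h6).1 ?_
    refine (e.summable_iff).1 ?_
    refine hAt.congr fun r => ?_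
    simp only [Function.comp_apply, hA]
    refine congrArg _ (funext fun p => ?_)
    exact (congrArg norm (hgx r p)).symm
  · have h6 : Function.support (fun x : b => ∫ p in (Set.univ : Set ℝ) ×ˢ F, g (x : 𝓞 K) p) ⊆ Set.range i := by
      intro x hx
      by_contra hne
      apply hx
      simp only [hoff x hne, h0, integral_zero]
    rw [← hi.tsum_eq h6, ← hBt', ← e.tsum_eq]
    refine tsum_congr fun r => ?_
    simp only [hB]
    refine congrArg _ (funext fun p => ?_)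
    exact hgx r p

end Pool.Agent.UN
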